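import Pool.Agent.H60.SYM.Targets

/-!
ROW: translations in the blocks and permutations of the blocks
-/

namespace Pool.Agent.H33.SYM.ROW

open Finset Pool.Agent.H60.SYM

section
variable {m n d : ℕ} {B P : Type}

/-- permutation of the blocks -/
def blkPerm (E : Fin m ≃ (B × (Fin d → ZMod 2)) ⊕ P) (l : Equiv.Perm B) : Equiv.Perm (Fin m) :=
  (E.trans (Equiv.sumCongr (Equiv.prodCongr l (Equiv.refl _)) (Equiv.refl P))).trans E.symm

/-- the map of the positions attached to a permutation of the rows -/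
abbrev mv (n : ℕ) (π : Equiv.Perm (Fin m)) : Pos m n → Pos m n := move π 1 fun _ => false

theorem mv_apply (π : Equiv.Perm (Fin m)) (q : Pos m n) : mv n π q = (π q.1, q.2.1, q.2.2) := by
  simp [mv, move]

theorem mv_comp (π π' : Equiv.Perm (Fin m)) : mv n π ∘ mv n π' = mv n (π * π') := by
  funext q
  simp [mv_apply]

theorem row_apply_inl (E : Fin m ≃ (B × (Fin d → ZMod 2)) ⊕ P) (κ : B → Fin d → ZMod 2)
    (j : Fin m) (b : B) (z : Fin d → ZMod 2) (h : E j = Sum.inl (b, z)) :
    rowPerm E κ j = E.symm (Sum.inl (b, z + κ b)) := by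
  simp [rowPerm, h]

theorem row_apply_inr (E : Fin m ≃ (B × (Fin d → ZMod 2)) ⊕ P) (κ : B → Fin d → ZMod 2)
    (j : Fin m) (p : P) (h : E j = Sum.inr p) : rowPerm E κ j = j := by
  rw [← Equiv.symm_apply_apply E j, h]
  simp [rowPerm]

theorem blk_apply_inl (E : Fin m ≃ (B × (Fin d → ZMod 2)) ⊕ P) (l : Equiv.Perm B)
    (j : Fin m) (b : B) (z : Fin d → ZMod 2) (h : E j = Sum.inl (b, z)) :
    blkPerm E l j = E.symm (Sum.inl (l b, z)) := by
  simp [blkPerm, h]

theorem blk_apply_inr (E : Fin m ≃ (B × (Fin d → ZMod 2)) ⊕ P) (l : Equiv.Perm B)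
    (j : Fin m) (p : P) (h : E j = Sum.inr p) : blkPerm E l j = j := by
  rw [← Equiv.symm_apply_apply E j, h]
  simp [blkPerm]

theorem row_zero (E : Fin m ≃ (B × (Fin d → ZMod 2)) ⊕ P) : rowPerm E 0 = 1 := by
  ext1 j
  rcases h : E j with ⟨b, z⟩ | p
  · rw [row_apply_inl E 0 j b z h, Pi.zero_apply, add_zero, ← h, Equiv.symm_apply_apply]
    rfl
  · rw [row_apply_inr E 0 j p h]; rfl

theorem row_mul (E : Fin m ≃ (B × (Fin d → ZMod 2)) ⊕ P) (κ κ' : B → Fin d → ZMod 2) :
    rowPerm E κ * rowPerm E κ' = rowPerm E (κ + κ') := by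
  ext1 j
  rw [Equiv.Perm.mul_apply]
  rcases h : E j with ⟨b, z⟩ | p
  · rw [row_apply_inl E κ' j b z h, row_apply_inl E κ _ b (z + κ' b) (Equiv.apply_symm_apply _ _),
      row_apply_inl E _ j b z h, Pi.add_apply]
    congr 3
    abel
  · rw [row_apply_inr E κ' j p h, row_apply_inr E κ j p h, row_apply_inr E _ j p h]

theorem row_conj (E : Fin m ≃ (B × (Fin d → ZMod 2)) ⊕ P) (κ : B → Fin d → ZMod 2)
    (l : Equiv.Perm B) :
    rowPerm E κ * blkPerm E l = blkPerm E l * rowPerm E (fun b => κ (l b)) := by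
  ext1 j
  rw [Equiv.Perm.mul_apply, Equiv.Perm.mul_apply]
  rcases h : E j with ⟨b, z⟩ | p
  · rw [blk_apply_inl E l j b z h, row_apply_inl E κ _ (l b) z (Equiv.apply_symm_apply _ _),
      row_apply_inl E _ j b z h, blk_apply_inl E l _ b (z + κ (l b)) (Equiv.apply_symm_apply _ _)]
  · rw [blk_apply_inr E l j p h, row_apply_inr E _ j p h, row_apply_inr E _ j p h,
      blk_apply_inr E l j p h]

end

/-- a permutation moving a set to a set with the same number of elements -/
theorem exists_perm {B : Type} [Fintype B] [DecidableEq B] (S A : Finset B) (h : S.card = A.card) :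
    ∃ l : Equiv.Perm B, ∀ b, b ∈ S ↔ l b ∈ A := by
  have e : {x // x ∈ S} ≃ {x // x ∈ A} := Fintype.equivOfCardEq (by simpa using h)
  refine ⟨Equiv.extendSubtype e, fun b => ⟨fun hb => ?_, fun hb => ?_⟩⟩
  · exact Equiv.extendSubtype_mem e b hb
  · by_contra hb'
    exact Equiv.extendSubtype_not_mem e b hb' hb

/-- the functional attached to `r` -/
def fnl {d : ℕ} {B : Type} [Fintype B] (r : B → Fin d → ZMod 2) :
    (B → Fin d → ZMod 2) →ₗ[ZMod 2] ZMod 2 where
  toFun κ := ∑ b, ∑ p, r b p * κ b p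
  map_add' κ κ' := by
    rw [← sum_add_distrib]
    refine sum_congr rfl fun b _ => ?_
    rw [← sum_add_distrib]
    refine sum_congr rfl fun p _ => ?_
    rw [Pi.add_apply, Pi.add_apply, mul_add]
  map_smul' c κ := by
    rw [RingHom.id_apply, smul_sum]
    refine sum_congr rfl fun b _ => ?_
    rw [smul_sum]
    refine sum_congr rfl fun p _ => ?_
    rw [Pi.smul_apply, Pi.smul_apply, smul_eq_mul, smul_eq_mul]
    ring

theorem fnl_inj {d : ℕ} {B : Type} [Fintype B] [DecidableEq B] {r r' : B → Fin d → ZMod 2}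
    (h : fnl r = fnl r') : r = r' := by
  funext b p
  have h1 := LinearMap.congr_fun h (Pi.single b (Pi.single p 1))
  have h2 : ∀ r : B → Fin d → ZMod 2, fnl r (Pi.single b (Pi.single p 1)) = r b p := by
    intro r
    change ∑ b', ∑ p', r b' p' * (Pi.single b (Pi.single p 1) : B → Fin d → ZMod 2) b' p' = _
    rw [sum_eq_single b, sum_eq_single p]
    · simp
    · intro p' _ hp'
      rw [Pi.single_eq_same, Pi.single_eq_of_ne hp', mul_zero]
    · simp
    · intro b' _ hb'
      rw [Pi.single_eq_of_ne hb']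
      simp
    · simp
  rw [h2, h2] at h1
  exact h1

theorem row (hORB : T_ORB) (hAUT : T_AUT) : T_ROW := by
  intro m n s d B P _ _ E C hC g r hg
  classical
  obtain ⟨hA1, hA2, hA3, -⟩ := hAUT _ s C
  set S : Finset B := univ.filter fun b => r b ≠ 0 with hS
  have hex : ∀ A : Finset B, ∃ l : Equiv.Perm B, S.card = A.card → ∀ b, b ∈ S ↔ l b ∈ A := by
    intro A
    by_cases h : S.card = A.card
    · obtain ⟨l, hl⟩ := exists_perm S A h
      exact ⟨l, fun _ => hl⟩
    · exact ⟨1, fun h' => absurd h' h⟩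
  choose l hl using hex
  let ω : Finset B → ((B → Fin d → ZMod 2) →ₗ[ZMod 2] ZMod 2) :=
    fun A => fnl fun b => r ((l A).symm b)
  have hinj : Set.InjOn ω (powersetCard S.card (univ : Finset B)) := by
    intro A hA A' hA' h
    have hA1 := (mem_powersetCard.1 hA).2
    have hA1' := (mem_powersetCard.1 hA').2
    have h1 := fnl_inj h
    have key : ∀ A : Finset B, S.card = A.card → ∀ b, b ∈ A ↔ r ((l A).symm b) ≠ 0 := by
      intro A hA b
      have := hl A hA ((l A).symm b)
      rw [Equiv.apply_symm_apply] at this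
      rw [← this, hS, mem_filter]
      simp
    ext b
    rw [key A hA1.symm, key A' hA1'.symm, congrFun h1 b]
  have hcard : ((powersetCard S.card (univ : Finset B)).image ω).card =
      (Fintype.card B).choose S.card := by
    rw [card_image_of_injOn hinj, card_powersetCard, card_univ]
  rw [← hcard]
  refine hORB s (B → Fin d → ZMod 2)
    (fun κ a => C.Extends (move (rowPerm E κ) 1 fun _ => false) a) ?_ ?_ ?_ ?_ _ ?_
  · rw [row_zero]
    have : (move (1 : Equiv.Perm (Fin m)) 1 fun _ : Fin n => false) = fun i => i := by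
      funext q
      exact mv_apply 1 q
    rw [this]
    exact hA1
  · intro v w a b ha hb
    have h1 := hA2 _ _ _ _ ha hb
    have h2 : (move (rowPerm E v) 1 fun _ : Fin n => false) ∘
        (move (rowPerm E w) 1 fun _ : Fin n => false) =
        move (rowPerm E (v + w)) 1 fun _ : Fin n => false := by
      rw [← row_mul]
      exact mv_comp _ _
    rwa [h2] at h1
  · intro v a ha
    refine hA3 _ _ _ ?_ ha
    intro i
    have h1 := congrFun (mv_comp (n := n) (rowPerm E v) (rowPerm E v)) i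
    have h2 : v + v = 0 := by
      funext b p
      exact CharTwo.add_self_eq_zero _
    rw [row_mul, h2, row_zero] at h1
    exact h1.trans (mv_apply 1 i)
  · intro v
    exact hC _ _ _
  · intro o ho
    obtain ⟨A, -, rfl⟩ := mem_image.1 ho
    obtain ⟨β, hβ⟩ := hC (blkPerm E (l A)) 1 fun _ => false
    refine ⟨β g, fun κ a ha hag => ?_⟩
    -- conjugation
    have hinv : C.Extends (mv n (blkPerm E (l A))⁻¹) β⁻¹ := by
      refine hA3 _ _ _ ?_ hβ
      intro i
      have h1 := congrFun (mv_comp (n := n) (blkPerm E (l A))⁻¹ (blkPerm E (l A))) i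
      rw [inv_mul_cancel] at h1
      exact h1.trans (mv_apply 1 i)
    have h3 := hA2 _ _ _ _ hinv (hA2 _ _ _ _ ha hβ)
    have h4 : mv n (blkPerm E (l A))⁻¹ ∘ ((move (rowPerm E κ) 1 fun _ : Fin n => false) ∘
        (move (blkPerm E (l A)) 1 fun _ : Fin n => false)) =
        move (rowPerm E fun b => κ (l A b)) 1 fun _ : Fin n => false := by
      have h5 : (move (rowPerm E κ) 1 fun _ : Fin n => false) ∘
        (move (blkPerm E (l A)) 1 fun _ : Fin n => false) =
          mv n (rowPerm E κ * blkPerm E (l A)) := mv_comp _ _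
      rw [h5, mv_comp, row_conj, inv_mul_cancel_left]
    rw [h4] at h3
    have h6 : (β⁻¹ * (a * β)) g = g := by
      rw [Equiv.Perm.mul_apply, Equiv.Perm.mul_apply, hag]
      exact Equiv.symm_apply_apply β g
    have h7 := hg _ _ h3 h6
    change ∑ b, ∑ p, r ((l A).symm b) p * κ b p = 0
    rw [← h7, ← Equiv.sum_comp (l A) (fun b => ∑ p, r ((l A).symm b) p * κ b p)]
    refine sum_congr rfl fun b _ => ?_
    rw [Equiv.symm_apply_apply]

end Pool.Agent.H33.SYM.ROW
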